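import Pool.Agent.Helper89.AntichainLattice
import Pool.Agent.Helper73.OWN.Nine

/-!
# The least number of generators of an infinite lattice in which antichains generate finite
sublattices
-/

set_option autoImplicit false

namespace Pool.Agent.Results.MP_da5d41_al.FourGenerators

open Pool.Agent.Helper89
open Pool.Agent.Helper89.AntichainLattice hiding Lat

universe u

/-- An infinite lattice generated by at most three elements is generated by an antichain. -/
theorem three (L : Type u) [Lattice L] [Infinite L] (G : Set L) (hG : G.encard ≤ 3)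
    (hgen : ⋂₀ {S : Set L | G ⊆ S ∧ SupClosed S ∧ InfClosed S} = Set.univ) :
    IsAntichain (· ≤ ·) G := by
  intro a ha b hb hne hab
  have hab' : a ≤ b := hab
  have hfin : G.Finite := Set.finite_of_encard_le_coe (k := 3) hG
  -- a third element
  obtain ⟨c, hc⟩ : ∃ c, G ⊆ {a, b, c} := by
    have h1 : (G \ {a, b}).encard ≤ 1 := by
      have h2 : ({a, b} : Set L) ⊆ G := by
        intro x hx
        rcases hx with rfl | hx
        · exact ha
        · rw [Set.mem_singleton_iff.1 hx]; exact hb
      have h3 := Set.encard_diff_add_encard_of_subset h2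
      rw [Set.encard_pair hne] at h3
      have h4 : (G \ {a, b}).encard + 2 ≤ 1 + 2 := by
        rw [h3]
        have : (1 : ℕ∞) + 2 = 3 := by norm_num
        rw [this]
        exact hG
      exact (WithTop.add_le_add_iff_right (by decide)).1 h4
    rcases Set.eq_empty_or_nonempty (G \ {a, b}) with h | ⟨c, hc⟩
    · refine ⟨a, fun x hx => ?_⟩
      by_contra hcon
      have : x ∈ G \ {a, b} := ⟨hx, fun hx' => hcon (by
        rcases hx' with rfl | hx'
        · simp
        · rw [Set.mem_singleton_iff.1 hx']; simp)⟩
      rw [h] at this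
      exact this
    · refine ⟨c, fun x hx => ?_⟩
      by_contra hcon
      have hx' : x ∈ G \ {a, b} := ⟨hx, fun hx' => hcon (by
        rcases hx' with rfl | hx'
        · simp
        · rw [Set.mem_singleton_iff.1 hx']; simp)⟩
      have : x = c := Set.encard_le_one_iff.1 h1 x c hx' hc
      exact hcon (by rw [this]; simp)
  obtain ⟨h1, h2⟩ := Pool.Agent.Helper73.OWN.closed9 a b c _ _ _ _ _ _ hab' rfl rfl rfl rfl rfl rfl
  have hmem : ({a, b, c, a ⊓ c, b ⊓ c, a ⊔ c, b ⊔ c, a ⊔ (b ⊓ c), b ⊓ (a ⊔ c)} : Set L) ∈
      {S : Set L | G ⊆ S ∧ SupClosed S ∧ InfClosed S} := by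
    refine ⟨hc.trans ?_, h1, h2⟩
    intro x hx
    simp only [Set.mem_insert_iff, Set.mem_singleton_iff] at hx ⊢
    tauto
  have h3 := Set.sInter_subset_of_mem hmem
  rw [hgen] at h3
  exact Set.infinite_univ ((Set.toFinite _).subset h3)

/-- The order of `Lat` is a well partial order. -/
theorem wqo : WellQuasiOrdered (α := AntichainLattice.Lat) (· ≤ ·) := by
  -- a tag and three coordinates
  let tag : AntichainLattice.Lat → Fin 6 := fun x => match x.1 with
    | Raw.w _ _ _ => 0
    | Raw.v _ _ => 1
    | Raw.g => 2
    | Raw.a _ _ => 3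
    | Raw.b _ => 4
    | Raw.t => 5
  let co : AntichainLattice.Lat → ℕ × ℕ × ℕ := fun x => match x.1 with
    | Raw.w i e j => (i, e, j)
    | Raw.v i e => (i, e, 0)
    | Raw.g => (0, 0, 0)
    | Raw.a i j => (i, j, 0)
    | Raw.b k => (k, 0, 0)
    | Raw.t => (0, 0, 0)
  have h1 : WellQuasiOrdered (fun x y : Fin 6 => x = y) := Finite.wellQuasiOrdered _
  have h2 : WellQuasiOrdered (α := ℕ × ℕ × ℕ) (· ≤ ·) := wellQuasiOrdered_le
  have h3 := h1.prod h2
  intro f
  obtain ⟨m, n, hmn, h4, h5⟩ := h3 (fun n => (tag (f n), co (f n)))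
  refine ⟨m, n, hmn, ?_⟩
  have h4' : tag (f m) = tag (f n) := h4
  have h5' : co (f m) ≤ co (f n) := h5
  show le (f m).1 (f n).1
  simp only [tag, co] at h4' h5'
  revert h4' h5'
  generalize (f m).1 = r
  generalize (f n).1 = r'
  intro h4' h5'
  cases r <;> cases r' <;> simp only [Prod.mk_le_mk] at h4' h5' <;>
    first
      | (exact absurd h4' (by decide))
      | (simp only [le]; omega)
      | (simp only [le]; done)

/-- Finite sets generate finite sublattices unless they contain `g` and an element below `g`. -/
theorem finite_of_notBelow (A : Set AntichainLattice.Lat) (hA : A.Finite)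
    (hAg : g2 ∈ A → ∀ x ∈ A, ¬ x < g2) :
    (⋂₀ {S : Set AntichainLattice.Lat | A ⊆ S ∧ SupClosed S ∧ InfClosed S}).Finite := by
  obtain ⟨N, hN⟩ := exists_bound A hA
  by_cases hg : g2 ∈ A
  · have hmem : {x : AntichainLattice.Lat | Q N x.1} ∈
        {S : Set AntichainLattice.Lat | A ⊆ S ∧ SupClosed S ∧ InfClosed S} := by
      refine ⟨?_, ?_, ?_⟩
      · intro x hx
        by_cases hxg : x = g2
        · rw [hxg]; simp [g2_val, Q]
        · have hxg' : x.1 ≠ Raw.g := fun h => hxg (Subtype.ext h)
          have h1 := hN x hx hxg'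
          have h2 : ¬ x ≤ g2 := fun h => hAg hg x hx (lt_of_le_of_ne h hxg)
          rw [le_val] at h2
          rw [g2_val] at h2
          change Q N x.1
          generalize x.1 = r at h1 h2 ⊢
          cases r <;> simp only [P, Q, le] at h1 h2 ⊢ <;> first | omega | trivial
      · intro x hx y hy
        exact Q_sup N _ _ x.2 y.2 hx hy
      · intro x hx y hy
        exact Q_inf N _ _ x.2 y.2 hx hy
    exact (finite_lat_bd N).subset
      (fun x hx => Q_bd N _ x.2 (Set.sInter_subset_of_mem hmem hx))
  · have hmem : {x : AntichainLattice.Lat | P N x.1} ∈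
        {S : Set AntichainLattice.Lat | A ⊆ S ∧ SupClosed S ∧ InfClosed S} := by
      refine ⟨?_, ?_, ?_⟩
      · intro x hx
        exact hN x hx (fun h => hg (by
          have : x = g2 := Subtype.ext h
          rwa [← this]))
      · intro x hx y hy
        exact P_sup N _ _ x.2 y.2 hx hy
      · intro x hx y hy
        exact P_inf N _ _ x.2 y.2 hx hy
    exact (finite_lat_bd N).subset
      (fun x hx => P_bd N _ x.2 (Set.sInter_subset_of_mem hmem hx))

theorem gen_four : ({f1, f2, g1, g2} : Set AntichainLattice.Lat).ncard = 4 ∧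
    ⋂₀ {S : Set AntichainLattice.Lat | ({f1, f2, g1, g2} : Set AntichainLattice.Lat) ⊆ S ∧ SupClosed S ∧ InfClosed S} =
      Set.univ := by
  constructor
  · have e1 : f1 ≠ f2 := fun h => by have := congrArg Subtype.val h; simp [f1_val, f2_val] at this
    have e2 : f1 ≠ g1 := fun h => by have := congrArg Subtype.val h; simp [f1_val, g1_val] at this
    have e3 : f1 ≠ g2 := fun h => by have := congrArg Subtype.val h; simp [f1_val, g2_val] at this
    have e4 : f2 ≠ g1 := fun h => by have := congrArg Subtype.val h; simp [f2_val, g1_val] at this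
    have e5 : f2 ≠ g2 := fun h => by have := congrArg Subtype.val h; simp [f2_val, g2_val] at this
    have e6 : g1 ≠ g2 := fun h => by have := congrArg Subtype.val h; simp [g1_val, g2_val] at this
    rw [Set.ncard_insert_of_notMem (by simp [e1, e2, e3]) (Set.toFinite _),
      Set.ncard_insert_of_notMem (by simp [e4, e5]) (Set.toFinite _), Set.ncard_pair e6]
  · rw [Set.eq_univ_iff_forall]
    intro x S hS
    exact gen_all S (hS.1 (by simp)) (hS.1 (by simp)) (hS.1 (by simp)) (hS.1 (by simp))
      hS.2.1 hS.2.2 x

/-- The least number of generators of an infinite lattice in which every finite antichain generates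
a finite sublattice is four: (1) an infinite lattice generated by at most three elements contains a
finite antichain which generates an infinite sublattice (its generators); (2) there is an infinite
lattice with four generators which has no infinite antichain and no infinite descending chain, in
which every antichain generates a finite sublattice, and which has an element `g` such that every
finite set generates a finite sublattice unless it contains `g` and an element below `g`. -/
theorem result :
    (∀ (L : Type u) [Lattice L], Infinite L → ∀ G : Set L, G.encard ≤ 3 →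
      ⋂₀ {S : Set L | G ⊆ S ∧ SupClosed S ∧ InfClosed S} = Set.univ →
      ∃ A : Set L, A.Finite ∧ IsAntichain (· ≤ ·) A ∧
        (⋂₀ {S : Set L | A ⊆ S ∧ SupClosed S ∧ InfClosed S}).Infinite) ∧
    ∃ (L : Type) (_ : Lattice L), Infinite L ∧
      (∃ G : Set L, G.ncard = 4 ∧
        ⋂₀ {S : Set L | G ⊆ S ∧ SupClosed S ∧ InfClosed S} = Set.univ) ∧
      WellFoundedLT L ∧
      (∀ A : Set L, IsAntichain (· ≤ ·) A → A.Finite ∧
        (⋂₀ {S : Set L | A ⊆ S ∧ SupClosed S ∧ InfClosed S}).Finite) ∧
      ∃ g : L, ∀ A : Set L, A.Finite → (g ∈ A → ∀ x ∈ A, ¬ x < g) →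
        (⋂₀ {S : Set L | A ⊆ S ∧ SupClosed S ∧ InfClosed S}).Finite := by
  constructor
  · intro L _ hL G hG hgen
    refine ⟨G, Set.finite_of_encard_le_coe (k := 3) hG, three L G hG hgen, ?_⟩
    rw [hgen]
    exact Set.infinite_univ
  · have hw : WellQuasiOrderedLE AntichainLattice.Lat := ⟨wqo⟩
    refine ⟨AntichainLattice.Lat, inferInstance, inferInstance, ⟨_, gen_four⟩, inferInstance, ?_,
      g2, finite_of_notBelow⟩
    intro A hA
    have hf : A.Finite := WellQuasiOrderedLE.finite_of_isAntichain hA
    exact ⟨hf, antichain_finite A hf hA⟩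

end Pool.Agent.Results.MP_da5d41_al.FourGenerators
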